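import Mathlib

set_option autoImplicit false

namespace Pool.Agent.H750Z.EGB

open MvPolynomial

/-- The variables `y_{ij}`, `i ≠ j`. -/
@[ext]
structure Var where
  /-- the first index -/
  i : ℕ
  /-- the second index -/
  j : ℕ
  ne : i ≠ j

/-- `φ_f : ℂ[Y] → ℂ[x_1, x_2, …]`, `y_{ij} ↦ f(x_i, x_j)`; here `s = X 0` and `t = X 1`. -/
noncomputable def phi (f : MvPolynomial (Fin 2) ℂ) : MvPolynomial Var ℂ →ₐ[ℂ] MvPolynomial ℕ ℂ :=
  aeval (fun v : Var => aeval ![(X v.i : MvPolynomial ℕ ℂ), X v.j] f)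

/-- The action `y_{ij} ↦ y_{σ(i) σ(j)}` of an injective map `σ` on the variables. -/
def act (σ : ℕ → ℕ) (hσ : Function.Injective σ) (v : Var) : Var :=
  ⟨σ v.i, σ v.j, fun h => v.ne (hσ h)⟩

/-- `I` is finitely generated up to symmetry: the orbits of a finite subset of `I` under the
permutations of `ℕ` fixing all but finitely many elements generate `I`. -/
def FGUpToSymmetry (I : Ideal (MvPolynomial Var ℂ)) : Prop :=
  ∃ F : Set (MvPolynomial Var ℂ), F.Finite ∧ F ⊆ I ∧
    Ideal.span {p | ∃ σ : Equiv.Perm ℕ, {x | σ x ≠ x}.Finite ∧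
      ∃ g ∈ F, p = rename (act σ σ.injective) g} = I

/-- The monomial order respects `Inc(ℕ)`: `a ≤ b` implies `ρ a ≤ ρ b` for strictly increasing `ρ`. -/
def RespectsInc (m : MonomialOrder Var) : Prop :=
  ∀ (ρ : ℕ → ℕ) (hρ : StrictMono ρ) (a b : Var →₀ ℕ), m.toSyn a ≤ m.toSyn b →
    m.toSyn (a.mapDomain (act ρ hρ.injective)) ≤ m.toSyn (b.mapDomain (act ρ hρ.injective))

/-- The ideal generated by the leading monomials of the nonzero elements of `S`. For an ideal `I`
this is the initial ideal of `I`. -/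
noncomputable def leadIdeal (m : MonomialOrder Var) (S : Set (MvPolynomial Var ℂ)) :
    Ideal (MvPolynomial Var ℂ) :=
  Ideal.span {p | ∃ g ∈ S, g ≠ 0 ∧ p = monomial (m.degree g) 1}

/-- `G` is an equivariant Groebner basis of `I`: `G ⊆ I` and the leading monomials of the elements
of `Inc(ℕ) · G` generate the initial ideal of `I`. -/
def IsEGB (m : MonomialOrder Var) (I : Ideal (MvPolynomial Var ℂ))
    (G : Set (MvPolynomial Var ℂ)) : Prop :=
  G ⊆ I ∧ leadIdeal m {p | ∃ (ρ : ℕ → ℕ) (hρ : StrictMono ρ), ∃ g ∈ G,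
    p = rename (act ρ hρ.injective) g} = leadIdeal m I

end Pool.Agent.H750Z.EGB
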