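import Pool.Agent.H750Z.EGB.Defs

set_option autoImplicit false

namespace Pool.Agent.H750Z.EGB

open MvPolynomial Finsupp

/-- out-degrees -/
noncomputable def out : (Var →₀ ℕ) →+ (ℕ →₀ ℕ) := Finsupp.mapDomain.addMonoidHom Var.i

/-- in-degrees -/
noncomputable def inn : (Var →₀ ℕ) →+ (ℕ →₀ ℕ) := Finsupp.mapDomain.addMonoidHom Var.j

/-- the multidegree -/
noncomputable def uu : (Var →₀ ℕ) →+ (ℕ →₀ ℕ) := 2 • out + inn

/-- one edge -/
noncomputable def E (p q : ℕ) (h : p ≠ q) : Var →₀ ℕ := single ⟨p, q, h⟩ 1

@[simp] theorem out_single (v : Var) (k : ℕ) : out (single v k) = single v.i k := by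
  simp [out]

@[simp] theorem inn_single (v : Var) (k : ℕ) : inn (single v k) = single v.j k := by
  simp [inn]

@[simp] theorem out_E (p q : ℕ) (h : p ≠ q) : out (E p q h) = single p 1 := out_single _ _

@[simp] theorem inn_E (p q : ℕ) (h : p ≠ q) : inn (E p q h) = single q 1 := inn_single _ _

@[simp] theorem degree_E (p q : ℕ) (h : p ≠ q) : degree (E p q h) = 1 := degree_single _ _

theorem uu_apply (a : Var →₀ ℕ) : uu a = 2 • out a + inn a := rfl

theorem uu_apply' (a : Var →₀ ℕ) (x : ℕ) : uu a x = 2 * out a x + inn a x := by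
  simp [uu_apply]

theorem degree_out (a : Var →₀ ℕ) : degree (out a) = degree a := degree_mapDomain _ _

theorem degree_inn (a : Var →₀ ℕ) : degree (inn a) = degree a := degree_mapDomain _ _

theorem degree_uu (a : Var →₀ ℕ) : degree (uu a) = 3 * degree a := by
  rw [uu_apply, map_add, map_nsmul, degree_out, degree_inn, smul_eq_mul]; ring

theorem degree_eq_of_uu {a b : Var →₀ ℕ} (h : uu a = uu b) : degree a = degree b := by
  have := congrArg degree h
  rw [degree_uu, degree_uu] at this
  omega

/-- the polynomial `s² t` -/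
noncomputable def ff : MvPolynomial (Fin 2) ℂ := X 0 ^ 2 * X 1

theorem phi_monomial (a : Var →₀ ℕ) (c : ℂ) : phi ff (monomial a c) = monomial (uu a) c := by
  have h1 : ∀ a : Var →₀ ℕ, phi ff (monomial a 1) = monomial (uu a) 1 := by
    intro a
    induction a using Finsupp.induction_linear with
    | zero => simp
    | add a b ha hb =>
      rw [map_add, ← one_mul (1 : ℂ), ← monomial_mul, ← monomial_mul, map_mul, ha, hb]
    | single v k =>
      rw [← X_pow_eq_monomial, map_pow, uu_apply, out_single, inn_single, ← one_mul (1 : ℂ),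
        ← monomial_mul, smul_single, ← X_pow_eq_monomial, ← X_pow_eq_monomial]
      simp only [phi, ff, aeval_X, map_mul, map_pow, Matrix.cons_val_zero, Matrix.cons_val_one,
        smul_eq_mul]
      ring
  rw [← mul_one c, ← C_mul_monomial, ← C_mul_monomial, map_mul, h1]
  congr 1
  exact (phi ff).commutes c

theorem split_of_ne_zero {a : Var →₀ ℕ} {v : Var} (h : a v ≠ 0) : ∃ a', a = a' + single v 1 :=
  ⟨a - single v 1, (Finsupp.sub_add_single_one_cancel h).symm⟩

theorem exists_of_mapDomain {f : Var → ℕ} {a : Var →₀ ℕ} {x : ℕ} (h : mapDomain f a x ≠ 0) :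
    ∃ v, f v = x ∧ a v ≠ 0 := by
  classical
  have := mapDomain_support (Finsupp.mem_support_iff.2 h)
  obtain ⟨v, hv, hx⟩ := Finset.mem_image.1 this
  exact ⟨v, hx, Finsupp.mem_support_iff.1 hv⟩

theorem out_edge {a : Var →₀ ℕ} {p : ℕ} (h : out a p ≠ 0) :
    ∃ (q : ℕ) (hq : p ≠ q) (a' : Var →₀ ℕ), a = a' + E p q hq := by
  obtain ⟨⟨i, j, hij⟩, rfl, hv⟩ := exists_of_mapDomain h
  obtain ⟨a', ha⟩ := split_of_ne_zero hv
  exact ⟨j, hij, a', ha⟩

theorem inn_edge {a : Var →₀ ℕ} {q : ℕ} (h : inn a q ≠ 0) :
    ∃ (p : ℕ) (hq : p ≠ q) (a' : Var →₀ ℕ), a = a' + E p q hq := by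
  obtain ⟨⟨i, j, hij⟩, rfl, hv⟩ := exists_of_mapDomain h
  obtain ⟨a', ha⟩ := split_of_ne_zero hv
  exact ⟨i, hij, a', ha⟩

theorem out_inn_le (a : Var →₀ ℕ) (x : ℕ) : out a x + inn a x ≤ degree a := by
  induction a using Finsupp.induction_linear with
  | zero => simp
  | add a b ha hb => simp only [map_add, Finsupp.add_apply]; omega
  | single v k =>
    have := v.ne
    simp only [out_single, inn_single, degree_single, single_apply]
    split_ifs <;> omega

theorem avoid_edge {a : Var →₀ ℕ} {x : ℕ} (h : out a x + inn a x < degree a) :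
    ∃ (p q : ℕ) (hq : p ≠ q) (a' : Var →₀ ℕ), p ≠ x ∧ q ≠ x ∧ a = a' + E p q hq := by
  have : ∃ v : Var, v.i ≠ x ∧ v.j ≠ x ∧ a v ≠ 0 := by
    induction a using Finsupp.induction_linear with
    | zero => simp at h
    | add a b ha hb =>
      simp only [map_add, Finsupp.add_apply] at h
      have h1 := out_inn_le a x
      have h2 := out_inn_le b x
      by_cases h3 : out a x + inn a x < degree a
      · obtain ⟨v, h4, h5, h6⟩ := ha h3
        exact ⟨v, h4, h5, by simp only [Finsupp.add_apply]; omega⟩
      · obtain ⟨v, h4, h5, h6⟩ := hb (by omega)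
        exact ⟨v, h4, h5, by simp only [Finsupp.add_apply]; omega⟩
    | single v k =>
      simp only [out_single, inn_single, degree_single, single_apply] at h
      refine ⟨v, ?_, ?_, ?_⟩
      · intro h1; rw [if_pos h1] at h; omega
      · intro h1; rw [if_pos h1] at h; omega
      · rw [single_eq_same]; omega
  obtain ⟨⟨i, j, hij⟩, h1, h2, hv⟩ := this
  obtain ⟨a', ha⟩ := split_of_ne_zero hv
  exact ⟨i, j, hij, a', h1, h2, ha⟩

section conn

variable (r : (Var →₀ ℕ) → (Var →₀ ℕ) → Prop) (hrefl : ∀ a, r a a)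
  (hsymm : ∀ a b, r a b → r b a) (htrans : ∀ a b c, r a b → r b c → r a c)
  (hadd : ∀ a b c, r a b → r (c + a) (c + b))
  (hsmall : ∀ a b, degree a ≤ 3 → uu a = uu b → r a b)

include hadd hsmall in
theorem move2 (c : Var →₀ ℕ) (x1 x2 y1 y2 : Var →₀ ℕ) (hd : degree (x1 + x2) ≤ 3)
    (h : uu (x1 + x2) = uu (y1 + y2)) : r (c + x2 + x1) (c + y2 + y1) := by
  have := hadd _ _ c (hsmall _ _ hd h)
  convert this using 1 <;> abel

include hadd hsmall in
theorem move3 (c : Var →₀ ℕ) (x1 x2 x3 y1 y2 y3 : Var →₀ ℕ) (hd : degree (x1 + x2 + x3) ≤ 3)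
    (h : uu (x1 + x2 + x3) = uu (y1 + y2 + y3)) : r (c + x3 + x2 + x1) (c + y3 + y2 + y1) := by
  have := hadd _ _ c (hsmall _ _ hd h)
  convert this using 1 <;> abel

include hrefl hadd hsmall in
theorem same_step (a b' : Var →₀ ℕ) (p q : ℕ) (hpq : p ≠ q) (ho : out a = out (b' + E p q hpq))
    (hi : inn a = inn (b' + E p q hpq)) :
    ∃ a', r a (a' + E p q hpq) ∧ uu a = uu (a' + E p q hpq) := by
  have hdeg : degree a = degree (b' + E p q hpq) := by rw [← degree_out, ho, degree_out]
  obtain ⟨x, hx, a1, rfl⟩ := out_edge (a := a) (p := p) (by rw [ho]; simp)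
  by_cases hxq : x = q
  · subst hxq
    exact ⟨a1, hrefl _, rfl⟩
  obtain ⟨y, hy, a2, rfl⟩ := inn_edge (a := a1) (q := q) (by
    have := DFunLike.congr_fun hi q
    simp only [map_add, inn_E, Finsupp.add_apply, single_eq_same, single_eq_of_ne' hxq] at this
    omega)
  by_cases hyx : y = x
  · subst hyx
    have h1 := out_inn_le b' y
    have h2 := DFunLike.congr_fun ho y
    have h3 := DFunLike.congr_fun hi y
    simp only [map_add, inn_E, out_E, degree_E, Finsupp.add_apply, single_eq_same,
      single_eq_of_ne' hx, single_eq_of_ne hxq] at h2 h3 hdeg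
    obtain ⟨c, e, hce, a3, hc, he, rfl⟩ := avoid_edge (a := a2) (x := y) (by omega)
    have hu : uu (E p y hx + E y q hy + E c e hce) = uu (E p q hpq + E c y hc + E y e he.symm) := by
      simp only [uu_apply, map_add, out_E, inn_E, smul_add]; abel
    refine ⟨a3 + E y e he.symm + E c y hc, move3 r hadd hsmall a3 _ _ _ _ _ _ (by simp) hu, ?_⟩
    simp only [uu_apply, map_add, out_E, inn_E, smul_add]; abel
  · have hu : uu (E p x hx + E y q hy) = uu (E p q hpq + E y x hyx) := by
      simp only [uu_apply, map_add, out_E, inn_E, smul_add]; abel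
    refine ⟨a2 + E y x hyx, move2 r hadd hsmall a2 _ _ _ _ (by simp) hu, ?_⟩
    simp only [uu_apply, map_add, out_E, inn_E, smul_add]; abel

include hadd hsmall in
theorem diff_step (a b : Var →₀ ℕ) (h : uu a = uu b) (v w : ℕ) (hv : out b v < out a v)
    (hw : out a w < out b w) :
    ∃ a', r a a' ∧ uu a = uu a' ∧ out a' + single v 1 = out a + single w 1 := by
  have hvw : v ≠ w := by rintro rfl; omega
  have hdeg := degree_eq_of_uu h
  have h1 := DFunLike.congr_fun h v
  have h2 := DFunLike.congr_fun h w
  have h3 := out_inn_le b v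
  rw [uu_apply', uu_apply'] at h1 h2
  have hav : out a v + inn a v < degree a := by omega
  have hin : 2 ≤ inn a w := by omega
  have hov : 1 ≤ out a v := by omega
  clear h1 h2 h3 hv hw hdeg h
  obtain ⟨y, hy, a1, rfl⟩ := inn_edge (a := a) (q := w) (by omega)
  obtain ⟨z, hz, a2, rfl⟩ := inn_edge (a := a1) (q := w) (by
    simp only [map_add, inn_E, Finsupp.add_apply, single_eq_same] at hin
    omega)
  by_cases hyv : y = v
  · subst hyv
    by_cases hzv : z = y
    · subst hzv
      simp only [map_add, inn_E, out_E, degree_E, Finsupp.add_apply, single_eq_same,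
        single_eq_of_ne hvw] at hav
      obtain ⟨c, e, hce, a3, hc, he, rfl⟩ := avoid_edge (a := a2) (x := z) (by omega)
      have hu : uu (E z w hy + E z w hz + E c e hce) =
          uu (E w z hvw.symm + E c z hc + E z e he.symm) := by
        simp only [uu_apply, map_add, out_E, inn_E, smul_add]; abel
      refine ⟨_, move3 r hadd hsmall a3 _ _ _ _ _ _ (by simp) hu, ?_, ?_⟩
      · simp only [uu_apply, map_add, out_E, inn_E, smul_add]; abel
      · simp only [map_add, out_E]; abel
    · have hu : uu (E y w hy + E z w hz) = uu (E w y hvw.symm + E z y hzv) := by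
        simp only [uu_apply, map_add, out_E, inn_E, smul_add]; abel
      refine ⟨_, move2 r hadd hsmall a2 _ _ _ _ (by simp) hu, ?_, ?_⟩
      · simp only [uu_apply, map_add, out_E, inn_E, smul_add]; abel
      · simp only [map_add, out_E]; abel
  · by_cases hzv : z = v
    · subst hzv
      have hu : uu (E y w hy + E z w hz) = uu (E w z hvw.symm + E y z hyv) := by
        simp only [uu_apply, map_add, out_E, inn_E, smul_add]; abel
      refine ⟨_, move2 r hadd hsmall a2 _ _ _ _ (by simp) hu, ?_, ?_⟩
      · simp only [uu_apply, map_add, out_E, inn_E, smul_add]; abel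
      · simp only [map_add, out_E]; abel
    · simp only [map_add, out_E, Finsupp.add_apply, single_eq_of_ne' hyv,
        single_eq_of_ne' hzv] at hov
      obtain ⟨x, hx, a3, rfl⟩ := out_edge (a := a2) (p := v) (by omega)
      by_cases hxw : x = w
      · subst hxw
        have hu : uu (E y x hy + E z x hz + E v x hx) =
            uu (E y v hyv + E z x hz + E x v hvw.symm) := by
          simp only [uu_apply, map_add, out_E, inn_E, smul_add]; abel
        refine ⟨_, move3 r hadd hsmall a3 _ _ _ _ _ _ (by simp) hu, ?_, ?_⟩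
        · simp only [uu_apply, map_add, out_E, inn_E, smul_add]; abel
        · simp only [map_add, out_E]; abel
      · have hu : uu (E y w hy + E z w hz + E v x hx) =
            uu (E y v hyv + E z v hzv + E w x (Ne.symm hxw)) := by
          simp only [uu_apply, map_add, out_E, inn_E, smul_add]; abel
        refine ⟨_, move3 r hadd hsmall a3 _ _ _ _ _ _ (by simp) hu, ?_, ?_⟩
        · simp only [uu_apply, map_add, out_E, inn_E, smul_add]; abel
        · simp only [map_add, out_E]; abel

theorem eq_of_le_of_degree {b c : ℕ →₀ ℕ} (h : b ≤ c) (hd : degree b = degree c) : b = c := by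
  obtain ⟨d, rfl⟩ := exists_add_of_le h
  rw [map_add] at hd
  have : d = 0 := (degree_eq_zero_iff d).1 (by omega)
  rw [this, add_zero]

include hrefl hsymm htrans hadd hsmall in
theorem conn (d : ℕ) : ∀ a b : Var →₀ ℕ, degree a = d → uu a = uu b → r a b := by
  induction d with
  | zero => intro a b hd h; exact hsmall a b (by omega) h
  | succ d ih =>
    have same : ∀ a b : Var →₀ ℕ, degree a = d + 1 → uu a = uu b → out a = out b → r a b := by
      intro a b hd h ho
      have hi : inn a = inn b := by
        rw [uu_apply, uu_apply, ho] at h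
        exact add_left_cancel h
      have hb : b ≠ 0 := by
        rintro rfl
        have := degree_eq_of_uu h
        rw [map_zero] at this
        omega
      obtain ⟨⟨p, q, hpq⟩, hv⟩ := Finsupp.ne_iff.1 hb
      obtain ⟨b', rfl⟩ := split_of_ne_zero hv
      obtain ⟨a', h1, h2⟩ := same_step r hrefl hadd hsmall a b' p q hpq ho hi
      have h3 : uu a' = uu b' := by
        rw [h2, map_add, map_add] at h
        exact add_right_cancel h
      have h4 : degree a' = d := by
        have := degree_eq_of_uu h2
        rw [map_add, degree_E] at this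
        omega
      have h5 := hadd _ _ (E p q hpq) (ih a' b' h4 h3)
      rw [add_comm _ a', add_comm _ b'] at h5
      exact htrans _ _ _ h1 h5
    intro a b hd h
    generalize hμ : degree (out a - out b) = μ
    induction μ generalizing a with
    | zero =>
      refine same a b hd h (eq_of_le_of_degree ?_ ?_)
      · exact tsub_eq_zero_iff_le.1 ((degree_eq_zero_iff _).1 hμ)
      · rw [degree_out, degree_out, degree_eq_of_uu h]
    | succ μ ih2 =>
      obtain ⟨v, hv⟩ : ∃ v, out b v < out a v := by
        by_contra hcon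
        push Not at hcon
        rw [tsub_eq_zero_iff_le.2 (show out a ≤ out b from hcon), map_zero] at hμ
        omega
      obtain ⟨w, hw⟩ : ∃ w, out a w < out b w := by
        by_contra hcon
        push Not at hcon
        have := eq_of_le_of_degree (show out b ≤ out a from hcon)
          (by rw [degree_out, degree_out, degree_eq_of_uu h])
        rw [this] at hv
        omega
      obtain ⟨a', h1, h2, h3⟩ := diff_step r hadd hsmall a b h v w hv hw
      refine htrans _ _ _ h1 (ih2 a' (by rw [← degree_eq_of_uu h2, hd]) (h2 ▸ h) ?_)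
      have h4 : (out a' - out b) + single v 1 = out a - out b := by
        ext x
        have := DFunLike.congr_fun h3 x
        simp only [Finsupp.add_apply, Finsupp.tsub_apply, single_apply] at this ⊢
        split_ifs at this ⊢ <;> subst_vars <;> omega
      have := congrArg degree h4
      rw [map_add, degree_single] at this
      omega

end conn

theorem exists_perm (k : ℕ) : ∀ T : Finset ℕ, T.card ≤ k →
    ∃ σ : Equiv.Perm ℕ, {x | σ x ≠ x}.Finite ∧ ∀ x ∈ T, σ x < k := by
  induction k with
  | zero =>
    intro T hT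
    rw [Nat.le_zero, Finset.card_eq_zero] at hT
    exact ⟨1, by simp, by simp [hT]⟩
  | succ k ih =>
    intro T hT
    rcases T.eq_empty_or_nonempty with rfl | ⟨t, ht⟩
    · exact ⟨1, by simp, by simp⟩
    obtain ⟨σ, h1, h2⟩ := ih (T.erase t) (by rw [Finset.card_erase_of_mem ht]; omega)
    by_cases h3 : σ t < k + 1
    · refine ⟨σ, h1, fun x hx => ?_⟩
      by_cases hxt : x = t
      · rw [hxt]; exact h3
      · exact Nat.lt_succ_of_lt (h2 x (Finset.mem_erase.2 ⟨hxt, hx⟩))
    · refine ⟨Equiv.swap (σ t) k * σ, ?_, fun x hx => ?_⟩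
      · refine ((h1.insert (σ t)).insert k).subset fun x hx => ?_
        by_contra hcon
        simp only [Set.mem_insert_iff, Set.mem_setOf_eq, not_or, not_not] at hcon hx
        apply hx
        rw [Equiv.Perm.mul_apply, hcon.2.2, Equiv.swap_apply_of_ne_of_ne hcon.2.1 hcon.1]
      · rw [Equiv.Perm.mul_apply]
        by_cases hxt : x = t
        · rw [hxt, Equiv.swap_apply_left]; omega
        · have := h2 x (Finset.mem_erase.2 ⟨hxt, hx⟩)
          rw [Equiv.swap_apply_of_ne_of_ne (by omega) (by omega)]
          omega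

theorem out_act (σ : ℕ → ℕ) (hσ : Function.Injective σ) (a : Var →₀ ℕ) :
    out (a.mapDomain (act σ hσ)) = (out a).mapDomain σ := by
  simp only [out, mapDomain.addMonoidHom_apply, ← mapDomain_comp]; rfl

theorem inn_act (σ : ℕ → ℕ) (hσ : Function.Injective σ) (a : Var →₀ ℕ) :
    inn (a.mapDomain (act σ hσ)) = (inn a).mapDomain σ := by
  simp only [inn, mapDomain.addMonoidHom_apply, ← mapDomain_comp]; rfl

theorem uu_act (σ : ℕ → ℕ) (hσ : Function.Injective σ) (a : Var →₀ ℕ) :
    uu (a.mapDomain (act σ hσ)) = (uu a).mapDomain σ := by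
  rw [uu_apply, uu_apply, out_act, inn_act, mapDomain_add, two_nsmul, two_nsmul, mapDomain_add]

theorem finite_V6 : {v : Var | v.i < 6 ∧ v.j < 6}.Finite := by
  refine Set.Finite.of_finite_image (f := fun v => (v.i, v.j))
    (((Set.finite_Iio 6).prod (Set.finite_Iio 6)).subset ?_) ?_
  · rintro _ ⟨v, hv, rfl⟩; exact hv
  · intro v _ w _ h
    exact Var.ext (Prod.ext_iff.1 h).1 (Prod.ext_iff.1 h).2

theorem finite_small :
    {a : Var →₀ ℕ | degree a ≤ 3 ∧ ∀ v, a v ≠ 0 → v.i < 6 ∧ v.j < 6}.Finite := by
  classical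
  refine (Set.finite_Iic (Finsupp.indicator finite_V6.toFinset (fun _ _ => 3))).subset ?_
  rintro a ⟨h1, h2⟩ v
  by_cases hv : a v = 0
  · rw [hv]; exact Nat.zero_le _
  · rw [Finsupp.indicator_of_mem (by simpa using h2 v hv)]
    exact (le_degree v a).trans h1

theorem uu_ne_zero {a : Var →₀ ℕ} {v : Var} (hv : a v ≠ 0) : uu a v.i ≠ 0 ∧ uu a v.j ≠ 0 := by
  obtain ⟨a', rfl⟩ := split_of_ne_zero hv
  simp [uu_apply']

theorem card_uu (a : Var →₀ ℕ) : (uu a).support.card ≤ 2 * degree a := by
  classical
  have h1 : (uu a).support ⊆ a.support.image Var.i ∪ a.support.image Var.j := by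
    intro x hx
    rw [Finsupp.mem_support_iff, uu_apply'] at hx
    by_cases h : out a x = 0
    · exact Finset.mem_union_right _ (mapDomain_support
        (Finsupp.mem_support_iff.2 (show inn a x ≠ 0 by omega)))
    · exact Finset.mem_union_left _ (mapDomain_support (Finsupp.mem_support_iff.2 h))
  have h2 : a.support.card ≤ degree a := by
    rw [degree_apply, Finset.card_eq_sum_ones]
    exact Finset.sum_le_sum fun v hv => Nat.one_le_iff_ne_zero.2 (Finsupp.mem_support_iff.1 hv)
  have h3 := (Finset.card_le_card h1).trans (Finset.card_union_le _ _)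
  have h4 := Finset.card_image_le (s := a.support) (f := Var.i)
  have h5 := Finset.card_image_le (s := a.support) (f := Var.j)
  omega

theorem phi_rename (σ : ℕ → ℕ) (hσ : Function.Injective σ) (p : MvPolynomial Var ℂ) :
    phi ff (rename (act σ hσ) p) = rename σ (phi ff p) := by
  induction p using MvPolynomial.induction_on' with
  | monomial a c => rw [rename_monomial, phi_monomial, phi_monomial, rename_monomial, uu_act]
  | add p q hp hq => simp only [map_add, hp, hq]

theorem fg : FGUpToSymmetry (RingHom.ker (phi ff)) := by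
  let A := {a : Var →₀ ℕ | degree a ≤ 3 ∧ ∀ v, a v ≠ 0 → v.i < 6 ∧ v.j < 6}
  let F : Set (MvPolynomial Var ℂ) := (fun p : (Var →₀ ℕ) × (Var →₀ ℕ) =>
    monomial p.1 1 - monomial p.2 1) '' {p | p ∈ A ×ˢ A ∧ uu p.1 = uu p.2}
  have hF : F ⊆ RingHom.ker (phi ff) := by
    rintro _ ⟨p, hp, rfl⟩
    simp only [SetLike.mem_coe, RingHom.mem_ker, map_sub, phi_monomial, hp.2, sub_self]
  refine ⟨F, ((finite_small.prod finite_small).subset fun p hp => hp.1).image _, hF,
    le_antisymm ?_ ?_⟩
  · rw [Ideal.span_le]
    rintro _ ⟨σ, _, g, hg, rfl⟩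
    have := hF hg
    simp only [SetLike.mem_coe, RingHom.mem_ker] at this ⊢
    rw [phi_rename, this, map_zero]
  set J := Ideal.span {p | ∃ σ : Equiv.Perm ℕ, {x | σ x ≠ x}.Finite ∧
      ∃ g ∈ F, p = rename (act σ σ.injective) g}
  have key : ∀ a b : Var →₀ ℕ, uu a = uu b →
      (monomial a 1 - monomial b 1 : MvPolynomial Var ℂ) ∈ J := by
    intro a b h
    refine conn (fun a b => (monomial a 1 - monomial b 1 : MvPolynomial Var ℂ) ∈ J) ?_ ?_ ?_ ?_ ?_
      _ a b rfl h
    · intro a; simp
    · intro a b h; simpa using neg_mem h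
    · intro a b c h1 h2; simpa using add_mem h1 h2
    · intro a b c h
      have := J.mul_mem_left (monomial c 1) h
      simpa [mul_sub, monomial_mul] using this
    · intro a b hd h
      obtain ⟨σ, h1, h2⟩ := exists_perm 6 (uu a).support ((card_uu a).trans (by omega))
      have hA : ∀ c : Var →₀ ℕ, uu c = uu a → c.mapDomain (act σ σ.injective) ∈ A := by
        intro c hc
        refine ⟨by rw [degree_mapDomain, degree_eq_of_uu hc]; exact hd, fun v hv => ?_⟩
        classical
        obtain ⟨w, hw, rfl⟩ := Finset.mem_image.1 (mapDomain_support (Finsupp.mem_support_iff.2 hv))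
        have := uu_ne_zero (Finsupp.mem_support_iff.1 hw)
        rw [hc] at this
        exact ⟨h2 _ (Finsupp.mem_support_iff.2 this.1), h2 _ (Finsupp.mem_support_iff.2 this.2)⟩
      refine Ideal.subset_span ⟨σ⁻¹, ?_, _, ⟨(a.mapDomain (act σ σ.injective),
        b.mapDomain (act σ σ.injective)), ⟨⟨hA a rfl, hA b h.symm⟩, ?_⟩, rfl⟩, ?_⟩
      · refine h1.subset fun x hx => ?_
        simp only [Set.mem_setOf_eq] at hx ⊢
        intro h3
        apply hx
        conv_lhs => rw [← h3]
        simp
      · simp only [uu_act, h]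
      · have : (act (⇑σ⁻¹) (σ⁻¹).injective) ∘ (act σ σ.injective) = id := by
          funext v; ext <;> simp [act]
        simp only [map_sub, rename_monomial, ← mapDomain_comp, this, mapDomain_id]
  intro p hp
  rw [RingHom.mem_ker] at hp
  classical
  let s : (ℕ →₀ ℕ) → (Var →₀ ℕ) := fun x => if h : ∃ a, uu a = x then h.choose else 0
  have hs : ∀ a, uu (s (uu a)) = uu a := fun a => by
    have h : ∃ b, uu b = uu a := ⟨a, rfl⟩
    simp only [s, dif_pos h]
    exact h.choose_spec
  let Ψ : MvPolynomial ℕ ℂ →ₗ[ℂ] MvPolynomial Var ℂ :=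
    (basisMonomials ℕ ℂ).constr ℂ (fun x => monomial (s x) 1)
  have hΨ : ∀ x c, Ψ (monomial x c) = monomial (s x) c := fun x c => by
    have h1 : (monomial x c : MvPolynomial ℕ ℂ) = c • basisMonomials ℕ ℂ x := by
      simp [smul_monomial]
    rw [h1, map_smul, Module.Basis.constr_basis, smul_monomial, smul_eq_mul, mul_one]
  have h2 : ∀ q : MvPolynomial Var ℂ, q - Ψ (phi ff q) ∈ J := by
    intro q
    induction q using MvPolynomial.induction_on' with
    | monomial a c =>
      rw [phi_monomial, hΨ]
      have := J.mul_mem_left (C c) (key a (s (uu a)) (hs a).symm)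
      simpa [mul_sub, C_mul_monomial] using this
    | add p q hp hq =>
      have := add_mem hp hq
      convert this using 1
      simp only [map_add]; ring
  simpa [hp] using h2 p

end Pool.Agent.H750Z.EGB
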