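import Pool.Agent.H750Z.EGB.Order

set_option autoImplicit false

namespace Pool.Agent.H750Z.EGB

open MvPolynomial Finsupp

/-- the down edges -/
def dd (t : ℕ) : Var := ⟨2 * t + 3, 2 * t, by omega⟩

/-- the up edge -/
def e0 (m : ℕ) : Var := ⟨1, 2 * m, by omega⟩

/-- a set of down edges -/
noncomputable def SS (D : Finset ℕ) : Var →₀ ℕ := ∑ t ∈ D, single (dd t) 1

theorem SS_insert {D : Finset ℕ} {t : ℕ} (h : t ∉ D) : SS (insert t D) = single (dd t) 1 + SS D :=
  Finset.sum_insert h

theorem SS_ne_zero {D : Finset ℕ} {v : Var} (h : SS D v ≠ 0) : ∃ t ∈ D, v = dd t := by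
  rw [SS, Finsupp.finsetSum_apply] at h
  obtain ⟨t, ht, h1⟩ := Finset.exists_ne_zero_of_sum_ne_zero h
  exact ⟨t, ht, by by_contra h2; exact h1 (single_eq_of_ne h2)⟩

theorem inn_SS_ne_zero {D : Finset ℕ} {x : ℕ} (h : inn (SS D) x ≠ 0) : ∃ t ∈ D, x = 2 * t := by
  obtain ⟨v, rfl, hv⟩ := exists_of_mapDomain h
  obtain ⟨t, ht, rfl⟩ := SS_ne_zero hv
  exact ⟨t, ht, rfl⟩

theorem out_SS_ne_zero {D : Finset ℕ} {x : ℕ} (h : out (SS D) x ≠ 0) :
    ∃ t ∈ D, x = 2 * t + 3 := by
  obtain ⟨v, rfl, hv⟩ := exists_of_mapDomain h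
  obtain ⟨t, ht, rfl⟩ := SS_ne_zero hv
  exact ⟨t, ht, rfl⟩

theorem inn_SS_le (D : Finset ℕ) (x : ℕ) : inn (SS D) x ≤ 1 := by
  induction D using Finset.induction_on with
  | empty => simp [SS]
  | insert t D ht ih =>
    rw [SS_insert ht, map_add, inn_single, Finsupp.add_apply, single_apply]
    split_ifs with h
    · by_contra h1
      obtain ⟨s, hs, h2⟩ := inn_SS_ne_zero (D := D) (x := x) (by omega)
      have : s = t := by simp only [dd] at h; omega
      exact ht (this ▸ hs)
    · omega

theorem up_SS (D : Finset ℕ) : up (SS D) = 0 := by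
  rw [SS, map_sum]
  exact Finset.sum_eq_zero fun t _ => by simp [dd]

theorem stepA {a s : Var →₀ ℕ} (h : uu a = uu s) (h1 : ∀ x, inn s x ≤ 1) :
    out a = out s ∧ inn a = inn s := by
  have ho : out a = out s := by
    refine eq_of_le_of_degree (fun x => ?_) (by rw [degree_out, degree_out, degree_eq_of_uu h])
    have h2 := DFunLike.congr_fun h x
    have h3 := h1 x
    rw [uu_apply', uu_apply'] at h2
    omega
  refine ⟨ho, ?_⟩
  rw [uu_apply, uu_apply, ho] at h
  exact add_left_cancel h

theorem mono (D : Finset ℕ) : ∀ a : Var →₀ ℕ, out a = out (SS D) → inn a = inn (SS D) →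
    toColex (SS D) ≤ toColex a := by
  induction D using Finset.induction_on_max with
  | empty => intro a _ _; exact toColex_monotone (show SS ∅ ≤ a from zero_le)
  | insert t D ht ih =>
    intro a ho hi
    have htD : t ∉ D := fun h => lt_irrefl _ (ht t h)
    obtain ⟨q, hq, a', rfl⟩ := out_edge (a := a) (p := 2 * t + 3) (by
      rw [ho, SS_insert htD]; simp [dd])
    obtain ⟨s, hs, rfl⟩ := inn_SS_ne_zero (D := insert t D) (x := q) (by rw [← hi]; simp)
    rcases Finset.mem_insert.1 hs with rfl | hs
    · rw [SS_insert htD, map_add, map_add, add_comm] at ho hi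
      have h1 := ih a' (add_left_cancel ho) (add_left_cancel hi)
      rw [SS_insert htD, add_comm]
      exact add_le_add_left h1 (toColex (single (dd s) 1))
    · have hst := ht s hs
      have h1 : ∀ w, SS (insert t D) w ≠ 0 → w < ⟨2 * t + 3, 2 * s, hq⟩ := by
        intro w hw
        obtain ⟨r, hr, rfl⟩ := SS_ne_zero hw
        have : r ≤ t := by
          rcases Finset.mem_insert.1 hr with rfl | hr
          · exact le_rfl
          · exact (ht r hr).le
        rw [var_lt_iff]
        simp only [dd]
        omega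
      have h2 : toColex (SS (insert t D)) < toColex (E (2 * t + 3) (2 * s) hq) := by
        rw [Colex.lt_iff]
        refine ⟨⟨2 * t + 3, 2 * s, hq⟩, fun j hj => ?_, ?_⟩
        · change SS (insert t D) j = E (2 * t + 3) (2 * s) hq j
          rw [E, single_eq_of_ne hj.ne']
          by_contra h3
          exact lt_asymm hj (h1 j h3)
        · change SS (insert t D) _ < E (2 * t + 3) (2 * s) hq _
          rw [E, single_eq_same]
          by_contra h3
          exact lt_irrefl _ (h1 _ (by omega))
      exact h2.le.trans (toColex_monotone le_add_self)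

theorem mins_of_up {a : Var →₀ ℕ} (h : up a = 0) : mins a = inn a := by
  induction a using Finsupp.induction_linear with
  | zero => simp
  | add a b ha hb =>
    rw [map_add] at h
    rw [map_add, map_add, ha (by omega), hb (by omega)]
  | single v k =>
    rw [up_single] at h
    rw [mins_single, inn_single]
    split_ifs at h with h1
    · rw [h, single_zero, single_zero]
    · rw [min_eq_right (by omega)]

/-- counting below `K` -/
noncomputable def cnt (K : ℕ) : (ℕ →₀ ℕ) →+ ℕ := Finsupp.weight (fun x : ℕ => if x < K then 1 else 0)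

@[simp] theorem cnt_single (K x k : ℕ) : cnt K (single x k) = if x < K then k else 0 := by
  simp [cnt, weight_single]

theorem cnt_le {a : Var →₀ ℕ} (h : up a = 0) (K : ℕ) : cnt (K + 1) (out a) ≤ cnt K (inn a) := by
  induction a using Finsupp.induction_linear with
  | zero => simp
  | add a b ha hb =>
    rw [map_add] at h
    have := ha (by omega)
    have := hb (by omega)
    simp only [map_add]
    omega
  | single v k =>
    have := v.ne
    rw [up_single] at h
    rw [out_single, inn_single, cnt_single, cnt_single]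
    split_ifs at h ⊢ <;> omega

theorem exists_up {a : Var →₀ ℕ} (h : up a ≠ 0) : ∃ v : Var, v.i < v.j ∧ a v ≠ 0 := by
  induction a using Finsupp.induction_linear with
  | zero => simp at h
  | add a b ha hb =>
    rw [map_add] at h
    by_cases h1 : up a = 0
    · obtain ⟨v, h2, h3⟩ := hb (by omega)
      exact ⟨v, h2, by rw [Finsupp.add_apply]; omega⟩
    · obtain ⟨v, h2, h3⟩ := ha h1
      exact ⟨v, h2, by rw [Finsupp.add_apply]; omega⟩
  | single v k =>
    rw [up_single] at h
    split_ifs at h with h1
    · exact ⟨v, h1, by rwa [single_eq_same]⟩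
    · exact absurd rfl h

theorem min1 (D : Finset ℕ) (a : Var →₀ ℕ) (h : uu a = uu (SS D)) : key (SS D) ≤ key a := by
  obtain ⟨ho, hi⟩ := stepA h (inn_SS_le D)
  rw [key_le_iff, up_SS]
  rcases (Nat.zero_le (up a)).lt_or_eq with h1 | h1
  · exact Or.inl h1
  · exact Or.inr ⟨h1, Or.inr ⟨by rw [mins_of_up (up_SS D), mins_of_up h1.symm, hi], mono D a ho hi⟩⟩

theorem min2 (m t0 : ℕ) (D : Finset ℕ) (ht0 : t0 < m) (hD : ∀ t ∈ D, t < m) (h0 : t0 ∉ D)
    (a : Var →₀ ℕ) (h : uu a = uu (single (e0 m) 1 + SS D)) :
    key (single (e0 m) 1 + SS D) ≤ key a := by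
  obtain ⟨ho, hi⟩ := stepA h (fun x => by
    rw [map_add, inn_single, Finsupp.add_apply, single_apply]
    have h1 := inn_SS_le D x
    split_ifs with h2
    · by_contra h3
      obtain ⟨s, hs, h4⟩ := inn_SS_ne_zero (D := D) (x := x) (by omega)
      have := hD s hs
      simp only [e0] at h2
      omega
    · omega)
  have hup : up (single (e0 m) 1 + SS D) = 1 := by
    rw [map_add, up_SS, up_single, if_pos (by simp only [e0]; omega)]
  have hne : up a ≠ 0 := by
    intro h1
    have h2 := cnt_le h1 (2 * t0 + 1)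
    have h3 : cnt (2 * t0 + 1 + 1) (out (SS D)) = cnt (2 * t0 + 1) (inn (SS D)) := by
      simp only [SS, map_sum, out_single, inn_single, cnt_single, dd]
      refine Finset.sum_congr rfl fun t ht => ?_
      have : t ≠ t0 := fun h => h0 (h ▸ ht)
      split_ifs <;> omega
    rw [ho, hi, map_add, map_add, map_add, map_add, h3, out_single, inn_single, cnt_single,
      cnt_single, if_pos (by simp only [e0]; omega), if_neg (by simp only [e0]; omega)] at h2
    omega
  rw [key_le_iff, hup]
  rcases (Nat.one_le_iff_ne_zero.2 hne).lt_or_eq with h1 | h1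
  · exact Or.inl h1
  refine Or.inr ⟨h1, ?_⟩
  obtain ⟨v, hv, hav⟩ := exists_up hne
  obtain ⟨a', rfl⟩ := split_of_ne_zero hav
  have hup' : up a' = 0 := by
    rw [map_add, up_single, if_pos hv] at h1
    omega
  have hvi : 1 ≤ v.i := by
    have h2 := DFunLike.congr_fun ho v.i
    simp only [map_add, out_single, Finsupp.add_apply, single_eq_same, e0] at h2
    by_contra h3
    rw [single_eq_of_ne (by omega)] at h2
    obtain ⟨t, _, h4⟩ := out_SS_ne_zero (D := D) (x := v.i) (by omega)
    omega
  have hvj : v.j ≤ 2 * m := by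
    have h2 := DFunLike.congr_fun hi v.j
    simp only [map_add, inn_single, Finsupp.add_apply, single_eq_same, e0] at h2
    by_contra h3
    rw [single_eq_of_ne (by omega)] at h2
    obtain ⟨t, ht, h4⟩ := inn_SS_ne_zero (D := D) (x := v.j) (by omega)
    have := hD t ht
    omega
  have hm1 : mins (single (e0 m) 1 + SS D) = single 1 1 + inn (SS D) := by
    rw [map_add, mins_single, mins_of_up (up_SS D), min_eq_left (by simp only [e0]; omega)]
    rfl
  have hm2 : mins (a' + single v 1) = inn a' + single v.i 1 := by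
    rw [map_add, mins_single, mins_of_up hup', min_eq_left hv.le]
  rw [map_add, map_add, inn_single, inn_single] at hi
  by_cases hve : v = e0 m
  · subst hve
    rw [map_add, map_add, add_comm] at ho
    rw [add_comm] at hi
    have h2 := add_left_cancel hi
    refine Or.inr ⟨by rw [hm1, hm2, h2, add_comm]; rfl, ?_⟩
    rw [add_comm a']
    exact add_le_add_right (mono D a' (add_left_cancel ho) h2) (toColex (single (e0 m) 1))
  · left
    rw [hm1, hm2]
    have h2 : toColex (single 1 1 : ℕ →₀ ℕ) + toColex (single v.j 1) <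
        toColex (single v.i 1) + toColex (single (2 * m) 1) := by
      by_cases h3 : v.i = 1
      · have h4 : v.j ≠ 2 * m := fun h4 => hve (Var.ext h3 h4)
        exact add_lt_add_of_le_of_lt (Colex.single_le_iff.2 hvi)
          (Colex.single_lt_iff.2 (by omega))
      · exact add_lt_add_of_lt_of_le (Colex.single_lt_iff.2 (by omega))
          (Colex.single_le_iff.2 hvj)
    have h3 := add_lt_add_left h2 (toColex (inn (SS D)))
    refine lt_of_add_lt_add_right (a := toColex (single v.j 1)) ?_
    convert h3 using 1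
    · simp only [toColex_add]; abel
    · simp only [← toColex_add]
      congr 1
      rw [add_right_comm, hi]
      simp only [e0]
      abel

/-- the long cycle monomial -/
noncomputable def MM (m : ℕ) : Var →₀ ℕ := single (e0 m) 1 + SS (Finset.range m)

theorem minimal (m : ℕ) (s : Var →₀ ℕ) (h1 : s ≤ MM m) (h2 : s ≠ MM m) (a : Var →₀ ℕ)
    (h : uu a = uu s) : key s ≤ key a := by
  obtain ⟨v, hv⟩ : ∃ v, s v < MM m v := by
    by_contra hcon
    push Not at hcon
    exact h2 (le_antisymm h1 hcon)
  have main : ∀ M', MM m = single v 1 + M' → (∀ b, uu b = uu M' → key M' ≤ key b) →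
      key s ≤ key a := by
    intro M' h3 h4
    have h5 : s ≤ M' := fun w => by
      have h6 := h1 w
      rw [h3, Finsupp.add_apply, single_apply] at h6
      split_ifs at h6 with h7
      · subst h7
        rw [h3, Finsupp.add_apply, single_eq_same] at hv
        omega
      · omega
    obtain ⟨c, rfl⟩ := exists_add_of_le h5
    have h6 := h4 (a + c) (by rw [map_add, map_add, h])
    rw [key_add, key_add] at h6
    exact le_of_add_le_add_right h6
  by_cases hve : v = e0 m
  · subst hve
    exact main _ rfl (min1 _)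
  · rw [MM, Finsupp.add_apply, single_eq_of_ne hve] at hv
    obtain ⟨t, ht, rfl⟩ := SS_ne_zero (D := Finset.range m) (v := v) (by omega)
    refine main (single (e0 m) 1 + SS ((Finset.range m).erase t)) ?_ (min2 m t _
      (Finset.mem_range.1 ht) (fun r hr => Finset.mem_range.1 (Finset.mem_of_mem_erase hr))
      (Finset.notMem_erase _ _))
    rw [MM, add_left_comm, ← SS_insert (Finset.notMem_erase _ _), Finset.insert_erase ht]

/-- the smaller monomial in the same fibre -/
noncomputable def MM' (m : ℕ) : Var →₀ ℕ :=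
  ∑ t ∈ Finset.range (m + 1), single (⟨2 * t + 1, 2 * t, by omega⟩ : Var) 1

theorem uu_MM (m : ℕ) : uu (MM m) = uu (MM' m) := by
  have h1 : out (MM m) = out (MM' m) := by
    simp only [MM, MM', SS, map_add, map_sum, out_single, e0, dd]
    rw [Finset.sum_range_succ', add_comm]
    rfl
  have h2 : inn (MM m) = inn (MM' m) := by
    simp only [MM, MM', SS, map_add, map_sum, inn_single, e0, dd]
    rw [Finset.sum_range_succ, add_comm]
  rw [uu_apply, uu_apply, h1, h2]

theorem key_MM (m : ℕ) (hm : 0 < m) : key (MM' m) < key (MM m) := by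
  have h1 : up (MM' m) = 0 := by
    rw [MM', map_sum]
    exact Finset.sum_eq_zero fun t _ => by simp
  have h2 : up (MM m) = 1 := by
    rw [MM, map_add, up_SS, up_single, if_pos (by simp only [e0]; omega)]
  rw [← not_le, key_le_iff, h1, h2]
  omega

theorem degree_MM (m : ℕ) : degree (MM m) = m + 1 := by
  simp [MM, SS, map_sum, add_comm]

theorem exists_other {g : MvPolynomial Var ℂ} (hg : phi ff g = 0) {s : Var →₀ ℕ}
    (hs : s ∈ g.support) : ∃ a ∈ g.support, a ≠ s ∧ uu a = uu s := by
  classical
  by_contra hcon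
  push Not at hcon
  have h1 : coeff (uu s) (phi ff g) = coeff s g := by
    conv_lhs => rw [g.as_sum]
    rw [map_sum, coeff_sum, Finset.sum_eq_single_of_mem s hs]
    · rw [phi_monomial, coeff_monomial, if_pos rfl]
    · intro b hb hbs
      rw [phi_monomial, coeff_monomial, if_neg (hcon b hb hbs)]
  rw [hg, coeff_zero] at h1
  exact MvPolynomial.mem_support_iff.1 hs h1.symm

theorem no_egb : ¬ ∃ G : Set (MvPolynomial Var ℂ), G.Finite ∧
    IsEGB mo (RingHom.ker (phi ff)) G := by
  classical
  rintro ⟨G, hG, hGI, hlead⟩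
  obtain ⟨N, hN⟩ := (hG.image totalDegree).bddAbove
  have hlt := key_MM (N + 1) (by omega)
  have hlt' : mo.toSyn (mo.degree (monomial (MM' (N + 1)) (-1 : ℂ))) <
      mo.toSyn (mo.degree (monomial (MM (N + 1)) (1 : ℂ))) := by
    rw [MonomialOrder.degree_monomial, MonomialOrder.degree_monomial, if_neg (by norm_num),
      if_neg (by norm_num)]
    exact hlt
  have hdeg := MonomialOrder.degree_add_of_lt hlt'
  rw [MonomialOrder.degree_monomial, if_neg (by norm_num)] at hdeg
  have hmem : (monomial (MM (N + 1)) 1 : MvPolynomial Var ℂ) ∈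
      leadIdeal mo (RingHom.ker (phi ff) : Set (MvPolynomial Var ℂ)) := by
    refine Ideal.subset_span ⟨_, ?_, ?_, by rw [hdeg]⟩
    · simp only [SetLike.mem_coe, RingHom.mem_ker, map_add, phi_monomial, uu_MM]
      rw [← map_add]; simp
    · refine MonomialOrder.ne_zero_of_degree_ne_zero (m := mo) ?_
      rw [hdeg]
      intro h
      have := degree_MM (N + 1)
      rw [h, map_zero] at this
      omega
  rw [← hlead] at hmem
  have hsub : ∀ S : Set (MvPolynomial Var ℂ), {p | ∃ g ∈ S, g ≠ 0 ∧ p = monomial (mo.degree g) 1} =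
      (fun s => monomial s (1 : ℂ)) '' {s | ∃ g ∈ S, g ≠ 0 ∧ s = mo.degree g} := by
    intro S
    ext p
    constructor
    · rintro ⟨g, h1, h2, rfl⟩
      exact ⟨_, ⟨g, h1, h2, rfl⟩, rfl⟩
    · rintro ⟨_, ⟨g, h1, h2, rfl⟩, rfl⟩
      exact ⟨g, h1, h2, rfl⟩
  rw [leadIdeal, hsub, mem_ideal_span_monomial_image] at hmem
  obtain ⟨_, ⟨_, ⟨ρ, hρ, g, hg, rfl⟩, h0, rfl⟩, hle⟩ := hmem (MM (N + 1)) (by
    rw [support_monomial, if_neg one_ne_zero]; exact Finset.mem_singleton_self _)
  have hs := MonomialOrder.degree_mem_support (m := mo) h0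
  have hker : phi ff (rename (act ρ hρ.injective) g) = 0 := by
    have := hGI hg
    simp only [SetLike.mem_coe, RingHom.mem_ker] at this
    rw [phi_rename, this, map_zero]
  obtain ⟨a, ha, hne, hu⟩ := exists_other hker hs
  have hd : degree (mo.degree (rename (act ρ hρ.injective) g)) ≤ N :=
    (le_totalDegree hs).trans ((totalDegree_rename_le _ _).trans (hN ⟨g, hg, rfl⟩))
  have h1 := minimal (N + 1) _ hle (fun h => by rw [h, degree_MM] at hd; omega) a hu
  exact hne (key_inj (le_antisymm (MonomialOrder.le_degree (m := mo) ha) h1))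

end Pool.Agent.H750Z.EGB
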