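import Pool.Agent.H750Z.EGB.Gen

set_option autoImplicit false

namespace Pool.Agent.H750Z.EGB

open MvPolynomial Finsupp

/-- code of a variable -/
def code (v : Var) : ℕ ×ₗ ℕ ×ₗ ℕ :=
  toLex (max v.i v.j, toLex (max v.i v.j - min v.i v.j, v.i))

theorem code_inj : Function.Injective code := by
  intro v w h
  have h1 := v.ne
  have h2 := w.ne
  simp only [code, toLex_inj, Prod.mk.injEq] at h
  ext <;> omega

/-- the order of the variables -/
noncomputable instance varOrder : LinearOrder Var := LinearOrder.lift' code code_inj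

theorem var_lt_iff (v w : Var) : v < w ↔ max v.i v.j < max w.i w.j ∨ max v.i v.j = max w.i w.j ∧
    (max v.i v.j - min v.i v.j < max w.i w.j - min w.i w.j ∨
      max v.i v.j - min v.i v.j = max w.i w.j - min w.i w.j ∧ v.i < w.i) := by
  change code v < code w ↔ _
  simp only [code, Prod.Lex.toLex_lt_toLex]

instance : WellFoundedLT Var :=
  ⟨InvImage.wf code (wellFounded_lt (α := ℕ ×ₗ ℕ ×ₗ ℕ))⟩

theorem act_strictMono (ρ : ℕ → ℕ) (hρ : StrictMono ρ) : StrictMono (act ρ hρ.injective) := by
  intro v w h
  rw [var_lt_iff] at h ⊢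
  simp only [act, ← hρ.monotone.map_max, ← hρ.monotone.map_min]
  have h1 : ∀ u : Var, min u.i u.j ≤ max u.i u.j := fun u => min_le_max
  rcases h with h | ⟨h, h2 | ⟨h2, h3⟩⟩
  · exact Or.inl (hρ h)
  · refine Or.inr ⟨by rw [h], Or.inl ?_⟩
    have h4 : ρ (min w.i w.j) < ρ (min v.i v.j) := hρ (by have := h1 v; have := h1 w; omega)
    have h5 := hρ.monotone (h1 v)
    rw [← h]
    omega
  · refine Or.inr ⟨by rw [h], Or.inr ⟨?_, hρ h3⟩⟩
    have h4 : min v.i v.j = min w.i w.j := by have := h1 v; have := h1 w; omega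
    rw [h, h4]

theorem colex_mapDomain_lt {α β : Type} [LinearOrder α] [LinearOrder β] (f : α → β)
    (hf : StrictMono f) {a b : α →₀ ℕ} (h : toColex a < toColex b) :
    toColex (a.mapDomain f) < toColex (b.mapDomain f) := by
  rw [Colex.lt_iff] at h ⊢
  obtain ⟨i, h1, h2⟩ := h
  refine ⟨f i, fun j hj => ?_, ?_⟩
  · change a.mapDomain f j = b.mapDomain f j
    by_cases hr : j ∈ Set.range f
    · obtain ⟨k, rfl⟩ := hr
      rw [mapDomain_apply hf.injective, mapDomain_apply hf.injective]
      exact h1 k (hf.lt_iff_lt.1 hj)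
    · rw [mapDomain_of_notMem_range _ _ hr, mapDomain_of_notMem_range _ _ hr]
  · change a.mapDomain f (f i) < b.mapDomain f (f i)
    rw [mapDomain_apply hf.injective, mapDomain_apply hf.injective]
    exact h2

theorem colex_mapDomain_le {α β : Type} [LinearOrder α] [LinearOrder β] (f : α → β)
    (hf : StrictMono f) {a b : α →₀ ℕ} (h : toColex a ≤ toColex b) :
    toColex (a.mapDomain f) ≤ toColex (b.mapDomain f) := by
  rcases h.lt_or_eq with h | h
  · exact (colex_mapDomain_lt f hf h).le
  · rw [toColex.injective h]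

/-- number of variables with `i < j` -/
noncomputable def up : (Var →₀ ℕ) →+ ℕ := Finsupp.weight (fun v : Var => if v.i < v.j then 1 else 0)

/-- the smaller indices -/
noncomputable def mins : (Var →₀ ℕ) →+ (ℕ →₀ ℕ) :=
  Finsupp.mapDomain.addMonoidHom (fun v : Var => min v.i v.j)

@[simp] theorem up_single (v : Var) (k : ℕ) : up (single v k) = if v.i < v.j then k else 0 := by
  simp [up, weight_single]

@[simp] theorem mins_single (v : Var) (k : ℕ) : mins (single v k) = single (min v.i v.j) k := by
  simp [mins]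

theorem up_act (ρ : ℕ → ℕ) (hρ : StrictMono ρ) (a : Var →₀ ℕ) :
    up (a.mapDomain (act ρ hρ.injective)) = up a := by
  induction a using Finsupp.induction_linear with
  | zero => simp
  | add a b ha hb => rw [mapDomain_add, map_add, map_add, ha, hb]
  | single v k => simp [act, hρ.lt_iff_lt]

theorem mins_act (ρ : ℕ → ℕ) (hρ : StrictMono ρ) (a : Var →₀ ℕ) :
    mins (a.mapDomain (act ρ hρ.injective)) = (mins a).mapDomain ρ := by
  induction a using Finsupp.induction_linear with
  | zero => simp
  | add a b ha hb => rw [mapDomain_add, map_add, map_add, ha, hb, mapDomain_add]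
  | single v k => simp [act, hρ.monotone.map_min]

/-- the ordered monoid of keys -/
abbrev Key : Type := ℕ ×ₗ Colex (ℕ →₀ ℕ) ×ₗ Colex (Var →₀ ℕ)

/-- the key of a monomial -/
noncomputable def key (a : Var →₀ ℕ) : Key := toLex (up a, toLex (toColex (mins a), toColex a))

theorem key_inj : Function.Injective key := by
  intro a b h
  simp only [key, toLex_inj, Prod.mk.injEq] at h
  exact toColex.injective h.2.2

theorem key_add (a b : Var →₀ ℕ) : key (a + b) = key a + key b := by
  simp only [key, map_add]; rfl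

theorem key_le_iff (a b : Var →₀ ℕ) : key a ≤ key b ↔ up a < up b ∨ up a = up b ∧
    (toColex (mins a) < toColex (mins b) ∨ mins a = mins b ∧ toColex a ≤ toColex b) := by
  simp only [key, Prod.Lex.toLex_le_toLex, EmbeddingLike.apply_eq_iff_eq]

theorem key_nonneg (a : Var →₀ ℕ) : key 0 ≤ key a := by
  rw [key_le_iff]
  rcases (Nat.zero_le (up a)).lt_or_eq with h | h
  · exact Or.inl (by simpa using h)
  refine Or.inr ⟨by simpa using h, ?_⟩
  have h1 : toColex (mins 0) ≤ toColex (mins a) := by
    rw [map_zero]; exact toColex_monotone zero_le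
  rcases h1.lt_or_eq with h1 | h1
  · exact Or.inl h1
  · exact Or.inr ⟨toColex.injective h1, toColex_monotone zero_le⟩

/-- type synonym -/
def Syn : Type := Var →₀ ℕ

noncomputable instance : AddCommMonoid Syn := inferInstanceAs (AddCommMonoid (Var →₀ ℕ))

noncomputable instance : LinearOrder Syn := LinearOrder.lift' (β := Key) (α := Syn) key key_inj

theorem syn_le_iff (a b : Syn) : a ≤ b ↔ key a ≤ key b := Iff.rfl

instance : IsOrderedAddMonoid Syn where
  add_le_add_left a b h c := by
    rw [syn_le_iff] at h ⊢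
    have h1 := key_add a c
    have h2 := key_add b c
    change key (a + c) ≤ key (b + c)
    erw [h1, h2]
    exact add_le_add_left h _

instance : WellFoundedLT Syn := ⟨InvImage.wf key (wellFounded_lt (α := Key))⟩

/-- the monomial order -/
noncomputable def mo : MonomialOrder Var where
  syn := Syn
  toSyn := AddEquiv.refl _
  toSyn_monotone := by
    intro a b h
    obtain ⟨c, rfl⟩ := exists_add_of_le h
    change key a ≤ key (a + c)
    have := add_le_add_right (key_nonneg c) (key a)
    rwa [← key_add, ← key_add, add_zero] at this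

theorem mo_le_iff (a b : Var →₀ ℕ) : mo.toSyn a ≤ mo.toSyn b ↔ key a ≤ key b := Iff.rfl

theorem mo_respects : RespectsInc mo := by
  intro ρ hρ a b h
  rw [mo_le_iff, key_le_iff] at h ⊢
  rw [up_act ρ hρ, up_act ρ hρ, mins_act ρ hρ, mins_act ρ hρ]
  rcases h with h | ⟨h, h1 | ⟨h1, h2⟩⟩
  · exact Or.inl h
  · exact Or.inr ⟨h, Or.inl (colex_mapDomain_lt ρ hρ h1)⟩
  · exact Or.inr ⟨h, Or.inr ⟨by rw [h1], colex_mapDomain_le _ (act_strictMono ρ hρ) h2⟩⟩

end Pool.Agent.H750Z.EGB
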